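import Pool.Agent.Y755.AX.Stm

/-!
# Project AX: the dependence of the marked process
-/

set_option autoImplicit false

open MeasureTheory ProbabilityTheory Filter

open scoped Classical

namespace Pool.Agent.Y361.AX.ATP

open Pool.Agent.Y755.AX

theorem Fs_le {α : Type} [MeasurableSpace α] (S : Set ℤ) :
    Fs (α := α) S ≤ MeasurableSpace.pi := by
  refine iSup₂_le fun x _ => ?_
  exact (measurable_pi_apply x).comap_le

theorem meas_coord {α : Type} [MeasurableSpace α] {S : Set ℤ} {x : ℤ} (hx : x ∈ S) :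
    Measurable[Fs S] (fun f : ℤ → α => f x) :=
  (comap_measurable _).mono (le_iSup₂_of_le x hx le_rfl) le_rfl

theorem meas_fin {β : Type} [MeasurableSpace β] {S : Set ℤ} (W : Finset ℤ)
    (hW : ∀ x ∈ W, x ∈ S) (f : (ℤ → Bool) → β)
    (hf : ∀ A A' : ℤ → Bool, (∀ x ∈ W, A x = A' x) → f A = f A') : Measurable[Fs S] f := by
  have h : f = (fun r : W → Bool => f (fun x => if h : x ∈ W then r ⟨x, h⟩ else false)) ∘
      (fun A x => A x) := by
    funext A
    apply hf
    intro x hx
    simp [hx]
  rw [h]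
  refine (measurable_of_countable _).comp ?_
  exact @measurable_pi_lambda _ _ _ (Fs S) _ _ (fun x => meas_coord (hW x x.2))

/-! ### The index -/

theorem idx_neg (A : ℤ → Bool) (x : ℤ) (hx : x < 0) (hA : A x = true) : idx A x < 0 := by
  have h1 : Finset.Ico 0 x = ∅ := Finset.Ico_eq_empty (by omega)
  have h2 : 0 < ((Finset.Ico x 0).filter fun y => A y = true).card := by
    apply Finset.card_pos.2
    exact ⟨x, by simp [hx, hA]⟩
  simp only [idx, h1, Finset.filter_empty, Finset.card_empty]
  omega

theorem idx_pos (A : ℤ → Bool) (t x : ℤ) (ht : 0 ≤ t) (htx : t ≤ x) :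
    idx A x = (((Finset.Ico t x).filter fun y => A y = true).card : ℤ) +
      (((Finset.Ico 0 t).filter fun y => A y = true).card : ℕ) := by
  have h1 : Finset.Ico x 0 = ∅ := Finset.Ico_eq_empty (by omega)
  have h2 : Finset.Ico 0 x = Finset.Ico 0 t ∪ Finset.Ico t x := (Finset.Ico_union_Ico_eq_Ico ht htx).symm
  have h3 : Disjoint ((Finset.Ico 0 t).filter fun y => A y = true)
      ((Finset.Ico t x).filter fun y => A y = true) := by
    rw [Finset.disjoint_left]
    intro y hy hy'
    simp only [Finset.mem_filter, Finset.mem_Ico] at hy hy'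
    omega
  simp only [idx, h1, h2, Finset.filter_union, Finset.filter_empty, Finset.card_empty]
  rw [Finset.card_union_of_disjoint h3]
  push_cast
  ring

theorem idx_congr (A A' : ℤ → Bool) (x : ℤ) (hx : x < 0)
    (h : ∀ y : ℤ, x ≤ y → y < 0 → A y = A' y) : idx A x = idx A' x := by
  have h1 : Finset.Ico 0 x = ∅ := Finset.Ico_eq_empty (by omega)
  have h2 : ((Finset.Ico x 0).filter fun y => A y = true) =
      ((Finset.Ico x 0).filter fun y => A' y = true) := by
    apply Finset.filter_congr
    intro y hy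
    rw [Finset.mem_Ico] at hy
    rw [h y hy.1 hy.2]
  simp only [idx, h1, h2, Finset.filter_empty]

theorem card_gap (a b : ℕ) (A : ℤ → Bool) (h : Gap a b A) (K : ℕ) :
    K ≤ ((Finset.Ico 0 ((K * b : ℕ) : ℤ)).filter fun y => A y = true).card := by
  induction K with
  | zero => simp
  | succ K ih =>
    obtain ⟨y, hy1, hy2, hy3⟩ := h.2 ((K * b : ℕ) : ℤ)
    have hsub : insert y ((Finset.Ico 0 ((K * b : ℕ) : ℤ)).filter fun y => A y = true) ⊆
        ((Finset.Ico 0 (((K + 1) * b : ℕ) : ℤ)).filter fun y => A y = true) := by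
      intro z hz
      rw [Finset.mem_insert] at hz
      simp only [Finset.mem_filter, Finset.mem_Ico] at hz ⊢
      push_cast at hz hy1 hy2 ⊢
      have hb : (0 : ℤ) ≤ b := by positivity
      have hKb : (0 : ℤ) ≤ K * b := by positivity
      rcases hz with rfl | ⟨⟨hz1, hz2⟩, hz3⟩
      · refine ⟨⟨by omega, ?_⟩, hy3⟩
        nlinarith
      · refine ⟨⟨hz1, ?_⟩, hz3⟩
        nlinarith
    have hn : y ∉ ((Finset.Ico 0 ((K * b : ℕ) : ℤ)).filter fun y => A y = true) := by
      simp only [Finset.mem_filter, Finset.mem_Ico, not_and]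
      intro h1
      omega
    have := Finset.card_le_card hsub
    rw [Finset.card_insert_of_notMem hn] at this
    omega

/-! ### Measurability -/

theorem meas_idx (x : ℤ) : Measurable fun A : ℤ → Bool => idx A x := by
  have := meas_fin (S := Set.univ) (Finset.Ico 0 x ∪ Finset.Ico x 0) (fun _ _ => Set.mem_univ _)
    (fun A : ℤ → Bool => idx A x) (by
      intro A A' h
      have h1 : ((Finset.Ico 0 x).filter fun y => A y = true) =
          ((Finset.Ico 0 x).filter fun y => A' y = true) := by
        apply Finset.filter_congr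
        intro y hy
        rw [h y (Finset.mem_union_left _ hy)]
      have h2 : ((Finset.Ico x 0).filter fun y => A y = true) =
          ((Finset.Ico x 0).filter fun y => A' y = true) := by
        apply Finset.filter_congr
        intro y hy
        rw [h y (Finset.mem_union_right _ hy)]
      simp only [idx, h1, h2])
  exact this.mono (Fs_le _) le_rfl

theorem meas_eval : Measurable fun p : ℤ × (ℤ → Bool) => p.2 p.1 := by
  apply measurable_from_prod_countable_right
  intro i
  exact measurable_pi_apply i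

theorem meas_att : Measurable (fun p : (ℤ → Bool) × (ℤ → Bool) => att p.1 p.2) := by
  refine measurable_pi_lambda _ fun x => ?_
  have h1 : Measurable fun p : (ℤ → Bool) × (ℤ → Bool) => p.1 x :=
    (measurable_pi_apply x).comp measurable_fst
  have h2 : Measurable fun p : (ℤ → Bool) × (ℤ → Bool) => p.2 (idx p.1 x) :=
    meas_eval.comp (((meas_idx x).comp measurable_fst).prodMk measurable_snd)
  have h3 : Measurable fun q : Bool × Bool => (q.1, q.1 && q.2) := measurable_of_countable _
  exact h3.comp (h1.prodMk h2)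

theorem meas_cyl (W : Finset ℤ) (e : ℤ → Bool × Bool) : MeasurableSet (cyl W e) := by
  have : cyl W e = ⋂ x ∈ W, {ω : ℤ → Bool × Bool | ω x = e x} := by
    ext ω
    simp [cyl]
  rw [this]
  refine Finset.measurableSet_biInter _ fun x _ => ?_
  have h : Measurable fun f : ℤ → Bool × Bool => f x := measurable_pi_apply x
  exact h (measurableSet_singleton (e x))

theorem meas_sh : Measurable (sh : (ℤ → Bool) → ℤ → Bool) :=
  measurable_pi_lambda _ fun x => measurable_pi_apply (x + 1)

theorem meas_shn (J : ℕ) : Measurable (fun (Y : ℤ → Bool) (i : ℤ) => Y (i + J)) :=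
  measurable_pi_lambda _ fun x => measurable_pi_apply (x + J)

theorem map_shn (ν : Measure (ℤ → Bool)) (h : Sta ν) (J : ℕ) :
    ν.map (fun (Y : ℤ → Bool) (i : ℤ) => Y (i + J)) = ν := by
  induction J with
  | zero => simp
  | succ J ih =>
    have h1 : (fun (Y : ℤ → Bool) (i : ℤ) => Y (i + ((J + 1 : ℕ) : ℤ))) =
        (fun (Y : ℤ → Bool) (i : ℤ) => Y (i + J)) ∘ sh := by
      funext Y i
      simp only [sh, Function.comp]
      congr 1
      push_cast
      ring
    rw [h1, ← Measure.map_map (meas_shn J) meas_sh]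
    have h2 : ν.map sh = ν := h
    rw [h2, ih]

/-! ### The events -/

/-- the event for the marks -/
def Bs (W : Finset ℤ) (e : ℤ → Bool × Bool) (A : ℤ → Bool) : Set (ℤ → Bool) :=
  {Y | ∀ x ∈ W, att A Y x = e x}

theorem meas_Bs (W : Finset ℤ) (e : ℤ → Bool × Bool) (A : ℤ → Bool) (S : Set ℤ)
    (h : ∀ x ∈ W, A x = true → idx A x ∈ S) : MeasurableSet[Fs S] (Bs W e A) := by
  have h1 : Measurable[Fs S] fun Y : ℤ → Bool => ∀ x ∈ W, att A Y x = e x := by
    refine meas_fin ((W.filter fun x => A x = true).image (idx A)) ?_ _ ?_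
    · intro y hy
      rw [Finset.mem_image] at hy
      obtain ⟨x, hx, rfl⟩ := hy
      rw [Finset.mem_filter] at hx
      exact h x hx.1 hx.2
    · intro Y Y' hY
      have h2 : ∀ x ∈ W, att A Y x = att A Y' x := by
        intro x hx
        by_cases hA : A x = true
        · have := hY (idx A x) (Finset.mem_image_of_mem _ (Finset.mem_filter.2 ⟨hx, hA⟩))
          simp only [att, this]
        · simp [att, hA]
      apply propext
      constructor
      · intro h3 x hx
        rw [← h2 x hx]
        exact h3 x hx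
      · intro h3 x hx
        rw [h2 x hx]
        exact h3 x hx
  have h3 : Bs W e A = (fun Y : ℤ → Bool => ∀ x ∈ W, att A Y x = e x) ⁻¹' {True} := by
    ext Y
    simp [Bs]
  rw [h3]
  exact h1 (measurableSet_singleton True)

/-- the event for the marks, with the index counted from `t` -/
def Cs (t : ℤ) (W : Finset ℤ) (e : ℤ → Bool × Bool) (A : ℤ → Bool) : Set (ℤ → Bool) :=
  {Y | ∀ x ∈ W, (A x, A x && Y (((Finset.Ico t x).filter fun y => A y = true).card : ℤ)) = e x}

theorem meas_Cs (t : ℤ) (W : Finset ℤ) (e : ℤ → Bool × Bool) (A : ℤ → Bool) :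
    MeasurableSet (Cs t W e A) := by
  have : Cs t W e A = ⋂ x ∈ W, {Y : ℤ → Bool | (A x, A x &&
      Y (((Finset.Ico t x).filter fun y => A y = true).card : ℤ)) = e x} := by
    ext ω
    simp [Cs]
  rw [this]
  refine Finset.measurableSet_biInter _ fun x _ => ?_
  have h : Measurable fun Y : ℤ → Bool => (A x, A x &&
      Y (((Finset.Ico t x).filter fun y => A y = true).card : ℤ)) :=
    (measurable_of_countable fun c : Bool => (A x, A x && c)).comp (measurable_pi_apply _)
  exact h (measurableSet_singleton (e x))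

theorem Bs_eq (ν : Measure (ℤ → Bool)) (hν : Sta ν) (t : ℤ) (ht : 0 ≤ t) (W : Finset ℤ)
    (hW : ∀ x ∈ W, t ≤ x) (e : ℤ → Bool × Bool) (A : ℤ → Bool) :
    ν (Bs W e A) = ν (Cs t W e A) := by
  have h1 : Bs W e A = (fun (Y : ℤ → Bool) (i : ℤ) => Y (i +
      (((Finset.Ico 0 t).filter fun y => A y = true).card : ℕ))) ⁻¹' Cs t W e A := by
    ext Y
    simp only [Bs, Cs, Set.mem_setOf_eq, Set.mem_preimage, att]
    constructor
    · intro h x hx
      rw [← h x hx, idx_pos A t x ht (hW x hx)]
    · intro h x hx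
      rw [← h x hx, idx_pos A t x ht (hW x hx)]
  rw [h1, ← Measure.map_apply (meas_shn _) (meas_Cs t W e A), map_shn ν hν]

theorem att_prod (μ ν : Measure (ℤ → Bool)) [IsProbabilityMeasure μ] [IsProbabilityMeasure ν]
    (S : Set (ℤ → Bool × Bool)) (hS : MeasurableSet S) :
    ((μ.prod ν).map fun p => att p.1 p.2) S = ∫⁻ A, ν {Y | att A Y ∈ S} ∂μ := by
  rw [Measure.map_apply meas_att hS, Measure.prod_apply (meas_att hS)]
  rfl

theorem t_ATP : S_DEPC → S_ATP := by
  intro hD a b k K μ ν _ _ hμ hν hk hK hgap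
  have : IsProbabilityMeasure ((μ.prod ν).map fun p => att p.1 p.2) :=
    Measure.isProbabilityMeasure_map meas_att.aemeasurable
  refine hD (Bool × Bool) (k + K * b) _ inferInstance ?_
  intro N e
  have ht0 : (0 : ℤ) ≤ ((k + K * b : ℕ) : ℤ) := by positivity
  have htk : (k : ℤ) ≤ ((k + K * b : ℕ) : ℤ) := by push_cast; nlinarith [mul_nonneg (Int.natCast_nonneg K) (Int.natCast_nonneg b)]
  have htb : ((K * b : ℕ) : ℤ) ≤ ((k + K * b : ℕ) : ℤ) := by push_cast; omega
  generalize ((k + K * b : ℕ) : ℤ) = t at ht0 htk htb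
  rw [att_prod μ ν _ ((meas_cyl _ _).inter (meas_cyl _ _)), att_prod μ ν _ (meas_cyl _ _),
    att_prod μ ν _ (meas_cyl _ _)]
  have e1 : ∀ (W : Finset ℤ) (A : ℤ → Bool), {Y | att A Y ∈ cyl W e} = Bs W e A := fun _ _ => rfl
  simp only [e1]
  have e2 : ∀ A : ℤ → Bool, ν (Bs (Finset.Ico t (t + N)) e A) =
      ν (Cs t (Finset.Ico t (t + N)) e A) := fun A =>
    Bs_eq ν hν t ht0 _ (fun x hx => (Finset.mem_Ico.1 hx).1) e A
  simp only [e2]
  -- measurability
  have m1 : Measurable[Fs {x : ℤ | x < 0}] fun A : ℤ → Bool =>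
      ν (Bs (Finset.Ico (-(N : ℤ)) 0) e A) := by
    refine meas_fin (Finset.Ico (-(N : ℤ)) 0) (fun x hx => (Finset.mem_Ico.1 hx).2) _ ?_
    intro A A' h
    congr 1
    ext Y
    have h2 : ∀ x ∈ Finset.Ico (-(N : ℤ)) 0, att A Y x = att A' Y x := by
      intro x hx
      have hx' := Finset.mem_Ico.1 hx
      have h3 : idx A x = idx A' x := idx_congr A A' x hx'.2 fun y h1 h2 =>
        h y (Finset.mem_Ico.2 ⟨by omega, h2⟩)
      simp only [att, h3, h x hx]
    simp only [Bs, Set.mem_setOf_eq]
    constructor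
    · intro h3 x hx
      rw [← h2 x hx]
      exact h3 x hx
    · intro h3 x hx
      rw [h2 x hx]
      exact h3 x hx
  have m2 : Measurable[Fs {x : ℤ | (k : ℤ) ≤ x}] fun A : ℤ → Bool =>
      ν (Cs t (Finset.Ico t (t + N)) e A) := by
    refine meas_fin (Finset.Ico t (t + N)) (fun x hx => by
      have := (Finset.mem_Ico.1 hx).1
      simp only [Set.mem_setOf_eq]; omega) _ ?_
    intro A A' h
    congr 1
    ext Y
    have h2 : ∀ x ∈ Finset.Ico t (t + N), (A x, A x &&
        Y (((Finset.Ico t x).filter fun y => A y = true).card : ℤ)) = (A' x, A' x &&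
        Y (((Finset.Ico t x).filter fun y => A' y = true).card : ℤ)) := by
      intro x hx
      have hx' := Finset.mem_Ico.1 hx
      have h3 : ((Finset.Ico t x).filter fun y => A y = true) =
          ((Finset.Ico t x).filter fun y => A' y = true) := by
        apply Finset.filter_congr
        intro y hy
        rw [Finset.mem_Ico] at hy
        rw [h y (Finset.mem_Ico.2 ⟨hy.1, by omega⟩)]
      rw [h3, h x hx]
    simp only [Cs, Set.mem_setOf_eq]
    constructor
    · intro h3 x hx
      rw [← h2 x hx]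
      exact h3 x hx
    · intro h3 x hx
      rw [h2 x hx]
      exact h3 x hx
  rw [← lintegral_mul_eq_lintegral_mul_lintegral_of_independent_measurableSpace (Fs_le _)
    (Fs_le _) hk m1 m2]
  apply lintegral_congr_ae
  filter_upwards [hgap] with A hA
  have h5 : {Y | att A Y ∈ cyl (Finset.Ico (-(N : ℤ)) 0) e ∩ cyl (Finset.Ico t (t + N)) e} =
      Bs (Finset.Ico (-(N : ℤ)) 0) e A ∩ Bs (Finset.Ico t (t + N)) e A := rfl
  rw [h5, ← e2]
  refine (Indep_iff _ _ ν).1 hK _ _ (meas_Bs _ e A _ ?_) (meas_Bs _ e A _ ?_)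
  · intro x hx h6
    exact idx_neg A x (Finset.mem_Ico.1 hx).2 h6
  · intro x hx _
    have h7 := (Finset.mem_Ico.1 hx).1
    rw [Set.mem_setOf_eq, idx_pos A t x ht0 h7]
    have h8 := card_gap a b A hA K
    have h9 : ((Finset.Ico 0 ((K * b : ℕ) : ℤ)).filter fun y => A y = true).card ≤
        ((Finset.Ico 0 t).filter fun y => A y = true).card := by
      apply Finset.card_le_card
      apply Finset.filter_subset_filter
      exact Finset.Ico_subset_Ico le_rfl htb
    have h10 : (K : ℤ) ≤ (((Finset.Ico 0 t).filter fun y => A y = true).card : ℕ) := by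
      exact_mod_cast h8.trans h9
    have h11 : (0 : ℤ) ≤ (((Finset.Ico t x).filter fun y => A y = true).card : ℤ) := by positivity
    linarith

end Pool.Agent.Y361.AX.ATP
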